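import Pool.Agent.N444.Two.D1.Fin
import Pool.Agent.N444.Two.Apply
import Pool.Agent.N444.Two.Num

set_option autoImplicit false

/-!
Let every four vertices of the 3-graph `T` on `n` vertices contain an edge, and suppose that `T` has
a clique `A` (all the triples of `A` are edges) with at least `0.452 n` vertices. Then `T` has at
least `C(n,3) - 0.555506 n³ / 6` edges, which is more than Turán's bound `4/9 C(n,3)` for all
`n ≥ 34000`.

The proof is a flag algebra certificate on six vertices coloured with two colours.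
-/

namespace Pool.Agent.Results.MP_466853_co.CliqueAbove452

open Pool.Agent.N444.Two in
theorem main (n : ℕ) (T : Finset (Finset (Fin n))) (h3 : ∀ e ∈ T, e.card = 3)
    (hT : ∀ S : Finset (Fin n), S.card = 4 → ∃ e ∈ T, e ⊆ S)
    (A : Finset (Fin n)) (hA : ∀ e : Finset (Fin n), e ⊆ A → e.card = 3 → e ∈ T)
    (hn : 452 * n ≤ 1000 * A.card) :
    (n.choose 3 : ℝ) - 0.555506 * (n : ℝ) ^ 3 / 6 ≤ T.card := by
  have hS := st_one (cmpl_card3 T) (cmpl_free h3 hT) (A := A)
    (fun e he hs => cmpl_not he (hA e hs (cmpl_card3 T e he)))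
  have hN : ((D1.NN : ℕ) : ℤ) * (Fintype.card (Fin n) : ℤ) ≤
      ((D1.DD : ℕ) : ℤ) * ∑ x, (col A x : ℤ) := by
    rw [sum_col, Fintype.card_fin]
    have e1 : ((D1.NN : ℕ) : ℤ) = 113 := rfl
    have e2 : ((D1.DD : ℕ) : ℤ) = 250 := rfl
    rw [e1, e2]
    have : (452 : ℤ) * n ≤ 1000 * A.card := by exact_mod_cast hn
    linarith
  have h1 := D1.main hS hN
  have h2 := SE_ge (cmpl_card3 T)
  have h4 := cmpl_card h3
  rw [Fintype.card_fin] at h1 h4
  have e1 : ((D1.WW : ℕ) : ℤ) = 70368744177664 := rfl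
  have e2 : ((D1.CST : ℕ) : ℤ) = 69177635688117355005 := rfl
  rw [e1, e2] at h1
  push_cast at h1
  have h5 : 360 * 70368744177664 * ((cmpl T).card : ℤ) ≤ 2345411706536445 * (n : ℤ) ^ 3 := by linarith
  have h6 : 360 * 70368744177664 * ((cmpl T).card : ℝ) ≤ 2345411706536445 * (n : ℝ) ^ 3 := by exact_mod_cast h5
  have h7 : ((cmpl T).card : ℝ) + T.card = (n.choose 3 : ℝ) := by exact_mod_cast h4
  have hp : (0 : ℝ) ≤ (n : ℝ) ^ 3 := by positivity
  nlinarith

theorem result : ∀ (n : ℕ) (T : Finset (Finset (Fin n))),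
    (∀ e ∈ T, e.card = 3) →
    (∀ S : Finset (Fin n), S.card = 4 → ∃ e ∈ T, e ⊆ S) →
    ∀ A : Finset (Fin n), (∀ e : Finset (Fin n), e ⊆ A → e.card = 3 → e ∈ T) →
      452 * n ≤ 1000 * A.card →
      (n.choose 3 : ℝ) - 0.555506 * (n : ℝ) ^ 3 / 6 ≤ T.card ∧
        (34000 ≤ n → 4 / 9 * (n.choose 3 : ℝ) < T.card) := by
  intro n T h3 hT A hA hn
  have h := main n T h3 hT A hA hn
  refine ⟨h, fun h34 => lt_of_lt_of_le ?_ h⟩
  have hc := Pool.Agent.N444.Two.choose_real n
  have hr : (34000 : ℝ) ≤ n := by exact_mod_cast h34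
  rw [hc]
  nlinarith [mul_nonneg (sq_nonneg (n : ℝ)) (sub_nonneg.mpr hr)]

end Pool.Agent.Results.MP_466853_co.CliqueAbove452
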