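import Pool.Agent.N439.CT.Main

/-!
# The exact Turán number for 3-graphs given by arc-coloured oriented graphs

Let `R` be an oriented graph (for example a tournament) whose arcs are coloured with any number of
colours. Call a triple of vertices an edge if no vertex of the triple sends arcs of the same colour
to the two others. If this 3-graph is `K_4^3`-free then it has at most as many edges as Turán's
construction, for every number `n` of vertices; Turán's construction is one of these 3-graphs.
-/

set_option autoImplicit false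
open Finset
open scoped Classical

namespace Pool.Agent.Results.MP_466853_co.ColouredTournaments

/-- `R` is (the arc relation of) an oriented graph: no loops, and at most one arc between two
vertices. -/
def IsOriented {n : ℕ} (R : Fin n → Fin n → Prop) : Prop := ∀ x y, R x y → ¬ R y x

/-- The 3-graph of the oriented graph `R` with the arc colouring `col` (only the colours of arcs
matter): the triples in which no vertex sends arcs of the same colour to the two others. -/
noncomputable def coloured {n : ℕ} (R : Fin n → Fin n → Prop) (col : Fin n → Fin n → ℕ) :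
    Finset (Finset (Fin n)) :=
  (univ.powersetCard 3).filter fun s : Finset (Fin n) =>
    ¬ ∃ x ∈ s, ∃ y ∈ s, ∃ z ∈ s, y ≠ z ∧ R x y ∧ R x z ∧ col x y = col x z

/-- The 3-graph `H` has no four vertices spanning all four triples. -/
def K43Free {n : ℕ} (H : Finset (Finset (Fin n))) : Prop :=
  ∀ S : Finset (Fin n), S.card = 4 → ∃ s ⊆ S, s.card = 3 ∧ s ∉ H

/-- Turán's number `f(n)`: `f(3s) = s(s-1)(2s-1)`, `f(3s+1) = s^2(2s-1)`, `f(3s+2) = s^2(2s+1)`.
Turán's construction has `C(n,3) - f(n)` edges. -/
def turan (n : ℕ) : ℕ :=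
  if n % 3 = 0 then (n / 3) * (n / 3 - 1) * (2 * (n / 3) - 1)
  else if n % 3 = 1 then (n / 3) ^ 2 * (2 * (n / 3) - 1)
  else (n / 3) ^ 2 * (2 * (n / 3) + 1)

theorem upper {n : ℕ} (R : Fin n → Fin n → Prop) (col : Fin n → Fin n → ℕ) (hR : IsOriented R)
    (hK : K43Free (coloured R col)) : (coloured R col).card + turan n ≤ n.choose 3 := by
  set N : ℕ := (univ.sup fun p : Fin n × Fin n => col p.1 p.2) + 1 with hN
  have hcolN : ∀ x y, col x y < N := by
    intro x y
    have := le_sup (f := fun p : Fin n × Fin n => col p.1 p.2) (mem_univ (x, y))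
    simp only at this
    omega
  set R' : Fin n → Fin n → Bool := fun x y => decide (R x y ∨ (x < y ∧ ¬ R y x)) with hR'
  set col' : Fin n → Fin n → ℕ := fun x y => if R x y then col x y else N + y with hcol'
  have r1 : ∀ x y, R' x y = true ↔ (R x y ∨ (x < y ∧ ¬ R y x)) := by
    intro x y
    rw [hR']
    simp only [decide_eq_true_eq]
  have k1 : ∀ x y, R' x y = true → R' y x = false := by
    intro x y h
    rw [← Bool.not_eq_true, r1]
    rw [r1] at h
    rcases h with h | h
    · rintro (h' | h')
      · exact hR x y h h'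
      · exact h'.2 h
    · rintro (h' | h')
      · exact h.2 h'
      · exact absurd (h.1.trans h'.1) (lt_irrefl x)
  have k2 : ∀ x y, x ≠ y → R' x y = true ∨ R' y x = true := by
    intro x y hxy
    rw [r1, r1]
    by_cases h1 : R x y
    · exact Or.inl (Or.inl h1)
    · by_cases h2 : R y x
      · exact Or.inr (Or.inl h2)
      · rcases lt_or_gt_of_ne hxy with h | h
        · exact Or.inl (Or.inr ⟨h, h2⟩)
        · exact Or.inr (Or.inr ⟨h, h1⟩)
  have k3 : ∀ x y, col' x y < N + n + 2 := by
    intro x y
    rw [hcol']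
    simp only
    split_ifs
    · have := hcolN x y
      omega
    · have := y.isLt
      omega
  have k4 : Pool.Agent.N439.CT.Cov R' col' (univ : Finset (Fin n)) := by
    intro Q _ hQ
    obtain ⟨s, hsQ, hs3, hs⟩ := hK Q hQ
    unfold coloured at hs
    rw [mem_filter, not_and, not_not] at hs
    obtain ⟨x, hx, y, hy, z, hz, hyz, h1, h2, h3⟩ := hs (mem_powersetCard.2 ⟨subset_univ _, hs3⟩)
    refine ⟨x, hsQ hx, y, hsQ hy, z, hsQ hz, hyz, (r1 x y).2 (Or.inl h1), (r1 x z).2 (Or.inl h2), ?_⟩
    rw [hcol']
    simp only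
    rw [if_pos h1, if_pos h2, h3]
  have k5 := Pool.Agent.N439.CT.tournament k1 k2 (N + n) k3 k4
  rw [card_univ, Fintype.card_fin] at k5
  have k6 : Pool.Agent.N439.CT.ch R' col' (univ : Finset (Fin n)) ⊆
      univ.powersetCard 3 \ coloured R col := by
    intro e he
    rw [Pool.Agent.N439.CT.mem_ch] at he
    obtain ⟨he3, x, hx, y, hy, z, hz, hyz, h1, h2, h3⟩ := he
    rw [mem_sdiff]
    refine ⟨he3, ?_⟩
    unfold coloured
    rw [mem_filter, not_and, not_not]
    intro _
    have hyz' : (y : ℕ) ≠ z := fun h => hyz (Fin.ext h)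
    rw [hcol'] at h3
    simp only at h3
    have c1 := hcolN x y
    have c2 := hcolN x z
    by_cases d1 : R x y
    · by_cases d2 : R x z
      · rw [if_pos d1, if_pos d2] at h3
        exact ⟨x, hx, y, hy, z, hz, hyz, d1, d2, h3⟩
      · rw [if_pos d1, if_neg d2] at h3
        omega
    · by_cases d2 : R x z
      · rw [if_neg d1, if_pos d2] at h3
        omega
      · rw [if_neg d1, if_neg d2] at h3
        omega
  have k7 := card_le_card k6
  have k8 : coloured R col ⊆ univ.powersetCard 3 := filter_subset _ _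
  have k9 := card_sdiff_add_card_eq_card k8
  rw [card_powersetCard, card_univ, Fintype.card_fin] at k9
  have k10 : Pool.Agent.N439.CT.turan n = turan n := rfl
  rw [k10] at k5
  omega

/-- the residue class `i` mod 3 -/
noncomputable def cls (n i : ℕ) : Finset (Fin n) := univ.filter fun x : Fin n => (x : ℕ) % 3 = i % 3

theorem card_cls (n i : ℕ) : (cls n i).card = n / 3 + if i % 3 < n % 3 then 1 else 0 := by
  have h1 : (cls n i).card = Nat.count (fun x => x % 3 = i % 3) n := by
    rw [Nat.count_eq_card_filter_range]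
    refine card_bij (fun x _ => (x : ℕ)) ?_ ?_ ?_
    · intro x hx
      exact mem_filter.2 ⟨mem_range.2 x.2, (mem_filter.1 hx).2⟩
    · intro x _ y _ h
      exact Fin.ext h
    · intro b hb
      exact ⟨⟨b, mem_range.1 (mem_filter.1 hb).1⟩, mem_filter.2 ⟨mem_univ _, (mem_filter.1 hb).2⟩,
        rfl⟩
  rw [h1]
  exact Nat.count_modEq_card n (r := 3) (by norm_num) i

/-- Turán's oriented graph: all arcs from each residue class mod 3 to the next one, and the arcs
from larger to smaller numbers inside the classes -/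
def turanR (n : ℕ) (x y : Fin n) : Prop :=
  (y : ℕ) % 3 = ((x : ℕ) + 1) % 3 ∨ ((y : ℕ) % 3 = (x : ℕ) % 3 ∧ y < x)

/-- its colouring: colour 0 inside the classes, colour 1 between the classes -/
def turanCol (n : ℕ) (x y : Fin n) : ℕ := if (y : ℕ) % 3 = (x : ℕ) % 3 then 0 else 1

theorem turan_oriented (n : ℕ) : IsOriented (turanR n) := by
  intro x y h1 h2
  unfold turanR at h1 h2
  rw [Fin.lt_def] at h1 h2
  omega

theorem same_or_next {n : ℕ} {x y z : Fin n} (h1 : turanR n x y) (h2 : turanR n x z)
    (h3 : turanCol n x y = turanCol n x z) :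
    ((y : ℕ) % 3 = (x : ℕ) % 3 ∧ (z : ℕ) % 3 = (x : ℕ) % 3) ∨
      ((y : ℕ) % 3 = ((x : ℕ) + 1) % 3 ∧ (z : ℕ) % 3 = ((x : ℕ) + 1) % 3) := by
  unfold turanR at h1 h2
  unfold turanCol at h3
  split_ifs at h3 with d1 d2
  · exact Or.inl ⟨d1, d2⟩
  · right
    refine ⟨?_, ?_⟩ <;> omega

/-- the triples which are not edges of Turán's construction -/
theorem turan_compl (n : ℕ) : (univ.powersetCard 3) \ coloured (turanR n) (turanCol n) ⊆
    (range 3).biUnion (fun i => (cls n i).powersetCard 3 ∪
      ((cls n i) ×ˢ ((cls n (i + 1)).powersetCard 2)).image (fun p => insert p.1 p.2)) := by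
  intro s hs
  rw [mem_sdiff] at hs
  obtain ⟨hs3, hse⟩ := hs
  have hcard := (mem_powersetCard.1 hs3).2
  unfold coloured at hse
  rw [mem_filter, not_and, not_not] at hse
  obtain ⟨x, hx, y, hy, z, hz, hyz, h1, h2, h3⟩ := hse hs3
  have hxy : x ≠ y := by
    rintro rfl
    exact turan_oriented n _ _ h1 h1
  have hxz : x ≠ z := by
    rintro rfl
    exact turan_oriented n _ _ h2 h2
  have hs : s = {x, y, z} := by
    symm
    apply eq_of_subset_of_card_le
    · intro w hw
      simp only [mem_insert, mem_singleton] at hw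
      rcases hw with rfl | rfl | rfl <;> assumption
    · rw [hcard, card_insert_of_notMem, card_insert_of_notMem, card_singleton] <;>
        simp [hxy, hxz, hyz]
  rw [mem_biUnion]
  refine ⟨(x : ℕ) % 3, mem_range.2 (Nat.mod_lt _ (by norm_num)), mem_union.2 ?_⟩
  rcases same_or_next h1 h2 h3 with ⟨e1, e2⟩ | ⟨e1, e2⟩
  · left
    refine mem_powersetCard.2 ⟨fun w hw => mem_filter.2 ⟨mem_univ _, ?_⟩, hcard⟩
    rw [hs] at hw
    simp only [mem_insert, mem_singleton] at hw
    rcases hw with rfl | rfl | rfl <;> omega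
  · right
    refine mem_image.2 ⟨(x, {y, z}), mem_product.2 ⟨mem_filter.2 ⟨mem_univ _, by simp⟩,
      mem_powersetCard.2 ⟨fun w hw => mem_filter.2 ⟨mem_univ _, ?_⟩, ?_⟩⟩, hs.symm⟩
    · simp only [mem_insert, mem_singleton] at hw
      rcases hw with rfl | rfl <;> omega
    · rw [card_insert_of_notMem (by simpa using hyz), card_singleton]

theorem choose_bound (n : ℕ) : ∑ i ∈ range 3, ((cls n i).card.choose 3 +
    (cls n i).card * (cls n (i + 1)).card.choose 2) = turan n := by
  obtain ⟨s, r, hr, hs⟩ : ∃ s r, r < 3 ∧ n = 3 * s + r := ⟨n / 3, n % 3, by omega, by omega⟩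
  have h1 : n / 3 = s := by omega
  have h2 : n % 3 = r := by omega
  have two_choose : ∀ k : ℕ, 2 * (k + 1).choose 2 = (k + 1) * k := by
    intro k
    rw [Nat.choose_two_right, mul_comm]
    exact Nat.div_mul_cancel (even_iff_two_dvd.1 (Nat.even_mul_pred_self (k + 1)))
  have six_choose : ∀ k : ℕ, 6 * (k + 2).choose 3 = (k + 2) * (k + 1) * k := by
    intro k
    induction k with
    | zero => rfl
    | succ k ih =>
      rw [Nat.choose_succ_succ' (k + 2) 2, mul_add, ih]
      have := two_choose (k + 1)
      nlinarith [this]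
  rw [sum_range_succ, sum_range_succ, sum_range_succ, sum_range_zero]
  simp only [card_cls, h1, h2]
  unfold turan
  rw [h1, h2]
  have e3 : (0 : ℕ) % 3 = 0 := rfl
  have e4 : (0 + 1 : ℕ) % 3 = 1 := rfl
  have e6 : (1 + 1 : ℕ) % 3 = 2 := rfl
  simp only [e3, e4, e6, zero_add]
  rcases Nat.eq_zero_or_pos s with rfl | hs0
  · interval_cases r <;> decide
  obtain ⟨k, rfl⟩ : ∃ k, s = k + 1 := ⟨s - 1, by omega⟩
  rcases Nat.eq_zero_or_pos k with rfl | hk0
  · interval_cases r <;> decide
  obtain ⟨l, rfl⟩ : ∃ l, k = l + 1 := ⟨k - 1, by omega⟩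
  have a1 := six_choose l
  have a2 := two_choose (l + 1)
  have a3 := six_choose (l + 1)
  have a4 := two_choose (l + 2)
  have : (6 : ℤ) ≠ 0 := by norm_num
  interval_cases r
  · have e9 : 2 * (l + 1 + 1) - 1 = 2 * l + 3 := by omega
    have e10 : l + 1 + 1 - 1 = l + 1 := by omega
    norm_num
    rw [e9]
    zify at a1 a2 ⊢
    apply mul_left_cancel₀ this
    linear_combination 3 * a1 + 9 * (l + 2) * a2
  · have e9 : 2 * (l + 1 + 1) - 1 = 2 * l + 3 := by omega
    norm_num
    rw [e9]
    zify at a1 a2 a3 a4 ⊢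
    apply mul_left_cancel₀ this
    linear_combination 2 * a1 + a3 + 3 * (l + 3) * a2 + 3 * (l + 2) * a2 + 3 * (l + 2) * a4
  · norm_num
    zify at a1 a2 a3 a4 ⊢
    apply mul_left_cancel₀ this
    linear_combination a1 + 2 * a3 + 3 * (l + 3) * a2 + 3 * (l + 3) * a4 + 3 * (l + 2) * a4

/-- Turán's construction is one of the 3-graphs. -/
theorem lower (n : ℕ) : n.choose 3 ≤ (coloured (turanR n) (turanCol n)).card + turan n := by
  have h1 := card_le_card (turan_compl n)
  have h2 := h1.trans (card_biUnion_le.trans (sum_le_sum fun i _ =>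
    (card_union_le _ _).trans (Nat.add_le_add_left card_image_le _)))
  simp only [card_powersetCard, card_product] at h2
  rw [choose_bound] at h2
  have h3 : coloured (turanR n) (turanCol n) ⊆ univ.powersetCard 3 := filter_subset _ _
  have h4 := card_sdiff_add_card_eq_card h3
  rw [card_powersetCard, card_univ, Fintype.card_fin] at h4
  omega

theorem turan_free (n : ℕ) : K43Free (coloured (turanR n) (turanCol n)) := by
  intro S hS
  by_contra hcon
  push Not at hcon
  -- no two arcs of the same colour leave one vertex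
  have hno : ∀ x ∈ S, ∀ y ∈ S, ∀ z ∈ S, y ≠ z → turanR n x y → turanR n x z →
      turanCol n x y ≠ turanCol n x z := by
    intro x hx y hy z hz hyz h1 h2 h3
    have hxy : x ≠ y := by
      rintro rfl
      exact turan_oriented n _ _ h1 h1
    have hxz : x ≠ z := by
      rintro rfl
      exact turan_oriented n _ _ h2 h2
    have h4 := hcon {x, y, z} (by
      intro w hw
      simp only [mem_insert, mem_singleton] at hw
      rcases hw with rfl | rfl | rfl <;> assumption) (by
      rw [card_insert_of_notMem, card_insert_of_notMem, card_singleton] <;> simp [hxy, hxz, hyz])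
    unfold coloured at h4
    rw [mem_filter] at h4
    exact h4.2 ⟨x, by simp, y, by simp, z, by simp, hyz, h1, h2, h3⟩
  -- two of the four vertices are in the same class
  obtain ⟨x, hx, y, hy, hyx, hmod⟩ : ∃ x ∈ S, ∃ y ∈ S, y < x ∧ (x : ℕ) % 3 = (y : ℕ) % 3 := by
    have hcard : (range 3).card < S.card := by
      rw [hS, card_range]
      norm_num
    obtain ⟨x, hx, y, hy, hxy, h⟩ := exists_ne_map_eq_of_card_lt_of_maps_to hcard
      (fun z _ => mem_coe.2 (mem_range.2 (Nat.mod_lt (z : ℕ) (by norm_num))))
    rcases lt_or_gt_of_ne hxy with h' | h'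
    · exact ⟨y, hy, x, hx, h', h.symm⟩
    · exact ⟨x, hx, y, hy, h', h⟩
  have hxy := hyx.ne'
  have h2 : ((S.erase x).erase y).card = 2 := by
    rw [card_erase_of_mem (mem_erase.2 ⟨hxy.symm, hy⟩), card_erase_of_mem hx, hS]
  obtain ⟨c, d, hcd, he⟩ := card_eq_two.1 h2
  have hc : c ∈ (S.erase x).erase y := by
    rw [he]
    simp
  have hd : d ∈ (S.erase x).erase y := by
    rw [he]
    simp
  rw [mem_erase, mem_erase] at hc hd
  -- the two others are in the next class
  have key : ∀ c ∈ S, c ≠ x → c ≠ y → (c : ℕ) % 3 = ((x : ℕ) + 1) % 3 := by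
    intro c hcS hcx hcy
    by_contra hne
    rw [Fin.lt_def] at hyx
    by_cases hs : (c : ℕ) % 3 = (x : ℕ) % 3
    · -- three vertices of the same class
      have hcx' : (c : ℕ) ≠ x := fun h => hcx (Fin.ext h)
      rcases Nat.lt_or_ge (x : ℕ) c with hlt | hge
      · refine hno c hcS x hx y hy hxy (Or.inr ⟨hs.symm, hlt⟩)
          (Or.inr ⟨by omega, by rw [Fin.lt_def]; omega⟩) ?_
        unfold turanCol
        rw [if_pos hs.symm, if_pos (by omega)]
      · refine hno x hx c hcS y hy hcy (Or.inr ⟨hs, by rw [Fin.lt_def]; omega⟩)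
          (Or.inr ⟨hmod.symm, by rw [Fin.lt_def]; omega⟩) ?_
        unfold turanCol
        rw [if_pos hs, if_pos hmod.symm]
    · refine hno c hcS x hx y hy hxy (Or.inl (by omega)) (Or.inl (by omega)) ?_
      unfold turanCol
      rw [if_neg (by omega), if_neg (by omega)]
  have l1 := key c hc.2.2 hc.2.1 hc.1
  have l2 := key d hd.2.2 hd.2.1 hd.1
  refine hno x hx c hc.2.2 d hd.2.2 hcd (Or.inl l1) (Or.inl l2) ?_
  unfold turanCol
  rw [if_neg (by omega), if_neg (by omega)]

/-- **The exact Turán number of the `K_4^3`-free 3-graphs of arc-coloured oriented graphs.** For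
every `n`, `C(n,3) - f(n)` is the largest number of edges of a `K_4^3`-free 3-graph
`coloured R col`, where `R` is an oriented graph on `n` vertices and `col` a colouring of its arcs
with any number of colours. -/
theorem result (n : ℕ) :
    (∀ (R : Fin n → Fin n → Prop) (col : Fin n → Fin n → ℕ), IsOriented R →
      K43Free (coloured R col) → (coloured R col).card + turan n ≤ n.choose 3) ∧
    (∃ (R : Fin n → Fin n → Prop) (col : Fin n → Fin n → ℕ), IsOriented R ∧
      K43Free (coloured R col) ∧ (coloured R col).card + turan n = n.choose 3) :=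
  ⟨fun R col hR hK => upper R col hR hK, turanR n, turanCol n, turan_oriented n, turan_free n,
    le_antisymm (upper _ _ (turan_oriented n) (turan_free n)) (lower n)⟩

end Pool.Agent.Results.MP_466853_co.ColouredTournaments
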