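import Pool.Agent.N601.DP.E

/-!
# Turán's `(3,4)`-conjecture and large powers of the degrees in `K_6^5`-free 5-graphs

For an `r`-graph `H` on `n` vertices without a complete subgraph `K_{r+1}^r` we consider the sum of
the `q`-th powers of the normalised degrees `(r-1)! d(v) / n^(r-1)`. We determine its maximum
asymptotically for large `q`, for all `r = k + 2 ≥ 3`: it is
`(1 + o(1)) n / (q e (k + 1) (1 - π))`, where `π` is the Turán density of `K_{k+1}^k`, a problem of
uniformity smaller by two. For `r = 3` and `r = 4` this gives the explicit values `n / (2 e q)` and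
`2 n / (3 e q)`, and for `r = 5` the limit is `1 / (4 e ρ)` with `ρ = 1 - π(K_4^3)`. So Turán's
`(3,4)`-conjecture `ρ ≥ 4/9` is equivalent to the upper bound with `9 / (16 e)` for the powers of the
degrees of `K_6^5`-free 5-graphs.

Proof. Let `B` be the set of the vertices of normalised degree more than `1 - s`. For two vertices
`v, w` of `B` a complete subgraph on `k + 1` vertices in the link of the pair is not an edge of both
links of `v` and `w`; so there are few of them, and by supersaturation the link of the pair has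
density at most `π + o(1)`. Hence with `b = |B| / n` the degrees in `B` are at most
`(1 - b)^(k+1) + (k + 1) b (π + o(1))`. In the construction `H` consists of the sets with one vertex
in `B`, and of the sets with two vertices in `B` whose other vertices form an edge of an extremal
`K_{k+1}^k`-free `k`-graph outside `B`.
-/

set_option autoImplicit false
open Finset Filter Topology
open scoped Classical

namespace Pool.Agent.Results.MP_466853_co.DegreePowers

/-- `H` is a `k`-graph in which no `k + 1` vertices span all their `k`-sets, that is, a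
`K_{k+1}^k`-free `k`-graph. -/
def Free {n : ℕ} (k : ℕ) (H : Finset (Finset (Fin n))) : Prop :=
  (∀ e ∈ H, e.card = k) ∧ ∀ S : Finset (Fin n), S.card = k + 1 → ∃ e ⊆ S, e.card = k ∧ e ∉ H

/-- The Turán number of `K_{k+1}^k`. -/
noncomputable def ex (k n : ℕ) : ℕ :=
  sSup {m : ℕ | ∃ H : Finset (Finset (Fin n)), Free k H ∧ H.card = m}

/-- The degree of the vertex `v`. -/
noncomputable def degree {n : ℕ} (H : Finset (Finset (Fin n))) (v : Fin n) : ℕ :=
  (H.filter fun e => v ∈ e).card

/-- The sum of the `q`-th powers of the normalised degrees `(k + 1)! d(v) / n^(k + 1)` of a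
`(k + 2)`-graph. -/
noncomputable def powerSum {n : ℕ} (k : ℕ) (q : ℝ) (H : Finset (Finset (Fin n))) : ℝ :=
  ∑ v : Fin n, (((k + 1).factorial : ℝ) * (degree H v : ℝ) / (n : ℝ) ^ (k + 1)) ^ q

/-- `L` is the limit, as `q → ∞`, of `q` times the limit, as `n → ∞`, of the maximum of
`powerSum k q H / n` over the `K_{k+3}^{k+2}`-free `(k + 2)`-graphs `H` on `n` vertices. -/
def IsLimit (k : ℕ) (L : ℝ) : Prop := ∀ ε : ℝ, 0 < ε → ∃ q₀ : ℝ, ∀ q : ℝ, q₀ ≤ q →
  ∃ N : ℕ, ∀ n : ℕ, N ≤ n →
    (∀ H : Finset (Finset (Fin n)), Free (k + 2) H → q * powerSum k q H ≤ (L + ε) * n) ∧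
    ∃ H : Finset (Finset (Fin n)), Free (k + 2) H ∧ (L - ε) * n < q * powerSum k q H

/-- **Large powers of the degrees and Turán's conjecture.** -/
theorem result :
    (∀ k : ℕ, 1 ≤ k → ∃ π : ℝ, 0 ≤ π ∧ π < 1 ∧
      Tendsto (fun n : ℕ => (ex k n : ℝ) / ((n.choose k : ℕ) : ℝ)) atTop (𝓝 π) ∧
      IsLimit k (1 / (Real.exp 1 * ((k + 1) * (1 - π))))) ∧
    IsLimit 1 (1 / (2 * Real.exp 1)) ∧
    IsLimit 2 (2 / (3 * Real.exp 1)) ∧
    (Tendsto (fun n : ℕ => (ex 3 n : ℝ) / ((n.choose 3 : ℕ) : ℝ)) atTop (𝓝 (5 / 9)) ↔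
      IsLimit 3 (9 / (16 * Real.exp 1))) ∧
    ((∀ ε : ℝ, 0 < ε → ∃ N : ℕ, ∀ n : ℕ, N ≤ n → ∀ H : Finset (Finset (Fin n)),
        (∀ e ∈ H, e.card = 3) → (∀ S : Finset (Fin n), S.card = 4 → ∃ e ∈ H, e ⊆ S) →
        (4 / 9 - ε) * ((n.choose 3 : ℕ) : ℝ) ≤ (H.card : ℝ)) ↔
      ∀ ε : ℝ, 0 < ε → ∃ q₀ : ℝ, ∀ q : ℝ, q₀ ≤ q → ∃ N : ℕ, ∀ n : ℕ, N ≤ n →
        ∀ H : Finset (Finset (Fin n)), Free 5 H →
          q * powerSum 3 q H ≤ (9 / (16 * Real.exp 1) + ε) * n) := by
  refine ⟨fun k hk => ⟨N601.DP.dens k, N601.DP.dens_nonneg k, N601.DP.dens_lt_one k,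
    N601.DP.dens_tendsto k, N601.DP.isLimit_cst hk⟩, ?_, ?_, N601.DP.equiv_limit,
    N601.DP.equiv_cover⟩
  · have h := N601.DP.isLimit_cst (k := 1) (le_refl 1)
    have e : N601.DP.cst 1 = 1 / (2 * Real.exp 1) := by
      unfold N601.DP.cst
      rw [N601.DP.dens_one]
      push_cast
      ring_nf
    rw [e] at h
    exact h
  · have h := N601.DP.isLimit_cst (k := 2) (by norm_num)
    have e : N601.DP.cst 2 = 2 / (3 * Real.exp 1) := by
      unfold N601.DP.cst
      rw [N601.DP.dens_two]
      have he := (Real.exp_pos 1).ne'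
      push_cast
      field_simp
      norm_num
    rw [e] at h
    exact h

end Pool.Agent.Results.MP_466853_co.DegreePowers
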