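import Pool.Agent.N442.K4.Cfg
import Pool.Agent.Results.MP_f1799f_co.FonDerFlaass

/-!
# Turán's `(3,4)`-conjecture for 3-graphs whose blow-ups look like Fon-der-Flaass 3-graphs

For two disjoint `s`-sets `X`, `Y` of vertices of a 3-graph write `X → Y` if all triples with two
vertices in `X` and one in `Y`, and none with one in `X` and two in `Y`, are edges; and write `X ≁ Y`
if no triple with vertices in `X` and in `Y`, and no others, is an edge. It is shown that a
`K_4^3`-free 3-graph on `n` vertices has at most `(5/9 + o(1)) C(n, 3)` edges if for some `s` it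
contains few (`o(n^{3s})` and `o(n^{4s})`) of the following two configurations of disjoint `s`-sets:

* `X`, `Y`, `Z` with `X ≁ Y`, `X ≁ Z` such that all triples with one vertex in each set are edges;
* `X → Y → Z → W → X` with `X ≁ Z`, `Y ≁ W` such that no triple with one vertex in each of `X`, `Y`, `Z`
  is an edge.

In particular this holds if the link graphs contain few induced copies of the graph
`K_{s,s} ∪ s K_1`. The 3-graphs of the Fon-der-Flaass construction contain neither configuration,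
for every oriented graph without induced oriented 4-cycle in which every `s` vertices contain three
pairwise non-adjacent ones; these include all constructions of Kostochka. So the bound `5/9` is
attained for `s = 7`.

Proof: if the 3-graph is denser than this by `ε`, then a random set of bounded size carries, by
Erdős's box theorem and Ramsey's theorem, a blow-up of a dense pattern. The arcs `i → j` of the pattern
form an oriented graph. Without the first configuration, every triple of the pattern is a triple of the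
Fon-der-Flaass construction of this oriented graph, and without the second one, it has no induced
oriented 4-cycle, because the four triples of such a cycle would form a `K_4^3`. So the bound follows
from the weighted form of the theorem on the Fon-der-Flaass construction (starting library).
-/

set_option autoImplicit false

open Finset
open scoped Classical

namespace Pool.Agent.Results.MP_466853_co.FonDerFlaassBlowUps

/-- The 3-graph `G` has no four vertices spanning all four triples. -/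
def K43Free {n : ℕ} (G : Finset (Finset (Fin n))) : Prop :=
  ∀ S : Finset (Fin n), S.card = 4 → ∃ e ⊆ S, e.card = 3 ∧ e ∉ G

/-- `x → y` for two families `x`, `y` of `s` vertices: all triples with two vertices of `x` and one
of `y`, and none with one vertex of `x` and two of `y`, are edges of `G`. -/
def Arrow {n s : ℕ} (G : Finset (Finset (Fin n))) (x y : Fin s → Fin n) : Prop :=
  (∀ p q r, p ≠ q → ({x p, x q, y r} : Finset (Fin n)) ∈ G) ∧
    ∀ p q r, q ≠ r → ({x p, y q, y r} : Finset (Fin n)) ∉ G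

/-- `x ≁ y` for two families `x`, `y` of `s` vertices: no triple with two vertices of one and one of
the other is an edge of `G`. -/
def Apart {n s : ℕ} (G : Finset (Finset (Fin n))) (x y : Fin s → Fin n) : Prop :=
  (∀ p q r, p ≠ q → ({x p, x q, y r} : Finset (Fin n)) ∉ G) ∧
    ∀ p q r, q ≠ r → ({x p, y q, y r} : Finset (Fin n)) ∉ G

/-- The first configuration: three disjoint classes `f (0, ·)`, `f (1, ·)`, `f (2, ·)` of `s`
vertices, the class 0 apart from the two others, such that all triples with one vertex in each class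
are edges. -/
def IsTriad (s : ℕ) {n : ℕ} (G : Finset (Finset (Fin n))) (f : Fin 3 × Fin s → Fin n) : Prop :=
  Function.Injective f ∧ Apart G (fun p => f (0, p)) (fun p => f (1, p)) ∧
    Apart G (fun p => f (0, p)) (fun p => f (2, p)) ∧
    ∀ p q r, ({f (0, p), f (1, q), f (2, r)} : Finset (Fin n)) ∈ G

/-- The second configuration: four disjoint classes of `s` vertices with `0 → 1 → 2 → 3 → 0`, the
classes 0, 2 apart and the classes 1, 3 apart, such that no triple with one vertex in each of the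
classes 0, 1, 2 is an edge. -/
def IsCycle (s : ℕ) {n : ℕ} (G : Finset (Finset (Fin n))) (f : Fin 4 × Fin s → Fin n) : Prop :=
  Function.Injective f ∧ Arrow G (fun p => f (0, p)) (fun p => f (1, p)) ∧
    Arrow G (fun p => f (1, p)) (fun p => f (2, p)) ∧
    Arrow G (fun p => f (2, p)) (fun p => f (3, p)) ∧
    Arrow G (fun p => f (3, p)) (fun p => f (0, p)) ∧
    Apart G (fun p => f (0, p)) (fun p => f (2, p)) ∧
    Apart G (fun p => f (1, p)) (fun p => f (3, p)) ∧
    ∀ p q r, ({f (0, p), f (1, q), f (2, r)} : Finset (Fin n)) ∉ G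

/-- The number of configurations of the first kind. -/
noncomputable def triads (s : ℕ) {n : ℕ} (G : Finset (Finset (Fin n))) : ℕ :=
  ((univ : Finset (Fin 3 × Fin s → Fin n)).filter (IsTriad s G)).card

/-- The number of configurations of the second kind. -/
noncomputable def cycles (s : ℕ) {n : ℕ} (G : Finset (Finset (Fin n))) : ℕ :=
  ((univ : Finset (Fin 4 × Fin s → Fin n)).filter (IsCycle s G)).card

/-- The link graph of the vertex `v` in the 3-graph `G` (with `v` as an isolated vertex). -/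
def link {n : ℕ} (G : Finset (Finset (Fin n))) (v : Fin n) : SimpleGraph (Fin n) where
  Adj a b := a ≠ b ∧ a ≠ v ∧ b ≠ v ∧ ({v, a, b} : Finset (Fin n)) ∈ G
  symm := ⟨fun a b h => ⟨h.1.symm, h.2.2.1, h.2.1, by rw [Finset.pair_comm]; exact h.2.2.2⟩⟩
  loopless := ⟨fun _ h => h.1 rfl⟩

/-- The number of pairs of a vertex `v` and an embedding of `F` as an induced subgraph into the link
graph of `v`. -/
noncomputable def copies {α : Type} (F : SimpleGraph α) {n : ℕ} (G : Finset (Finset (Fin n))) : ℕ :=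
  ∑ v, Nat.card (F ↪g link G v)

/-- The graph `K_{s,s} ∪ s K_1`: a complete bipartite graph and `s` isolated vertices. -/
def bipartitePoints (s : ℕ) : SimpleGraph ((Fin s ⊕ Fin s) ⊕ Fin s) :=
  completeBipartiteGraph (Fin s) (Fin s) ⊕g (⊥ : SimpleGraph (Fin s))

/-- `R` is (the arc relation of) an oriented graph on `n` vertices: no loops, and at most one arc
between two vertices. -/
def IsOriented {n : ℕ} (R : Fin n → Fin n → Prop) : Prop := ∀ x y, R x y → ¬ R y x

/-- `R` has no induced oriented 4-cycle `a → b → c → d → a` (`a,c` and `b,d` not joined by an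
arc; in an oriented graph the four vertices are automatically distinct). -/
def NoInducedC4 {n : ℕ} (R : Fin n → Fin n → Prop) : Prop :=
  ¬ ∃ a b c d : Fin n, R a b ∧ R b c ∧ R c d ∧ R d a ∧ ¬ R a c ∧ ¬ R c a ∧ ¬ R b d ∧ ¬ R d b

/-- Every set of `s` vertices contains three pairwise non-adjacent ones. -/
def ManyIndependent {n : ℕ} (s : ℕ) (R : Fin n → Fin n → Prop) : Prop :=
  ∀ S : Finset (Fin n), S.card = s → ∃ T ⊆ S, T.card = 3 ∧ ∀ x ∈ T, ∀ y ∈ T, ¬ R x y

/-- The `K_4^3`-free 3-graph of the Fon-der-Flaass construction: all triples in which every vertex is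
joined by an arc to at least one of the other two, and no vertex sends arcs to both others. -/
noncomputable def construction {n : ℕ} (R : Fin n → Fin n → Prop) : Finset (Finset (Fin n)) :=
  (Finset.univ.powersetCard 3).filter fun e : Finset (Fin n) =>
    ∀ x ∈ e, (∃ y ∈ e, y ≠ x ∧ (R x y ∨ R y x)) ∧ ∃ y ∈ e, y ≠ x ∧ ¬ R x y

open Pool.Agent.N442.LP Pool.Agent.N442.K4

theorem kfree {n : ℕ} {G : Finset (Finset (Fin n))} (h : K43Free G) : KFree 4 G := by
  intro S hS
  obtain ⟨e, he, he3, heG⟩ := h S hS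
  exact ⟨e, mem_powersetCard.mpr ⟨he, he3⟩, heG⟩

theorem rho3 : rho 3 = 5 / 9 := by
  unfold rho
  norm_num

theorem qd_le {α : Type} [Fintype α] (F : SimpleGraph α) {n : ℕ} (hn : 0 < n)
    (G : Finset (Finset (Fin n))) {k : ℕ} (hk : Fintype.card α + 1 = k) {δ : ℝ}
    (h : (copies F G : ℝ) ≤ δ * (n : ℝ) ^ k) : qd F n G ≤ δ := by
  unfold qd
  rw [hk, div_le_iff₀ (by positivity)]
  have h1 : cop F G ≤ copies F G := cop_le F G (link G) fun _ _ _ => Iff.rfl
  exact le_trans (by exact_mod_cast h1) h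

theorem num_triads (s : ℕ) {n : ℕ} (G : Finset (Finset (Fin n))) :
    num (Bad3 s G) = triads s G := by
  unfold num triads
  refine congrArg card ?_
  ext f
  simp only [mem_filter, mem_univ, true_and]
  exact Iff.rfl

theorem num_cycles (s : ℕ) {n : ℕ} (G : Finset (Finset (Fin n))) :
    num (Bad4 s G) = cycles s G := by
  unfold num cycles
  refine congrArg card ?_
  ext f
  simp only [mem_filter, mem_univ, true_and]
  exact Iff.rfl

/-- the upper bound -/
theorem part1 (s : ℕ) (ε : ℝ) (hε : 0 < ε) : ∃ δ : ℝ, 0 < δ ∧ ∃ N : ℕ, ∀ n : ℕ, N ≤ n →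
    ∀ G : Finset (Finset (Fin n)), (∀ e ∈ G, e.card = 3) → K43Free G →
      (((triads s G : ℝ) ≤ δ * (n : ℝ) ^ (3 * s) ∧ (cycles s G : ℝ) ≤ δ * (n : ℝ) ^ (4 * s)) ∨
        (copies (bipartitePoints s) G : ℝ) ≤ δ * (n : ℝ) ^ (3 * s + 1)) →
      (G.card : ℝ) ≤ (5 / 9 + ε) * (n.choose 3 : ℝ) := by
  obtain ⟨δ, hδ, N, hN⟩ := thmB s hε
  obtain ⟨δ', hδ', N', hN'⟩ := thm4 s hε
  refine ⟨min (δ / 2) δ', lt_min (by positivity) hδ', max N N' + 1, fun n hn G h3 hK h => ?_⟩
  have hNn : N ≤ n := by omega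
  have hNn' : N' ≤ n := by omega
  have hn0 : (0 : ℝ) < n := by exact_mod_cast (show 0 < n by omega)
  rw [← rho3]
  rcases h with ⟨h1, h2⟩ | h
  · refine hN n hNn G h3 (kfree hK) ?_
    have e1 : dn (Fin 3 × Fin s) (Bad3 s G) ≤ δ / 2 := by
      unfold dn
      rw [Fintype.card_prod, Fintype.card_fin, Fintype.card_fin, div_le_iff₀ (by positivity)]
      rw [num_triads]
      exact h1.trans (mul_le_mul_of_nonneg_right (min_le_left _ _) (by positivity))
    have e2 : dn (Fin 4 × Fin s) (Bad4 s G) ≤ δ / 2 := by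
      unfold dn
      rw [Fintype.card_prod, Fintype.card_fin, Fintype.card_fin, div_le_iff₀ (by positivity)]
      rw [num_cycles]
      exact h2.trans (mul_le_mul_of_nonneg_right (min_le_left _ _) (by positivity))
    linarith
  · exact hN' n hNn' G h3 (kfree hK)
      ((qd_le (bipartitePoints s) (by omega) G (by simp; ring) h).trans (min_le_right _ _))

/-! ### The Fon-der-Flaass construction -/

section
variable {n : ℕ} {R : Fin n → Fin n → Prop}

theorem mem_con {a b c : Fin n} (hab : a ≠ b) (hac : a ≠ c) (hbc : b ≠ c) :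
    (({a, b, c} : Finset (Fin n)) ∈ construction R) ↔
      (((R a b ∨ R b a) ∨ (R a c ∨ R c a)) ∧ (¬ R a b ∨ ¬ R a c)) ∧
      (((R b a ∨ R a b) ∨ (R b c ∨ R c b)) ∧ (¬ R b a ∨ ¬ R b c)) ∧
      (((R c a ∨ R a c) ∨ (R c b ∨ R b c)) ∧ (¬ R c a ∨ ¬ R c b)) := by
  unfold construction
  have h3 : ({a, b, c} : Finset (Fin n)).card = 3 := card_eq_three.mpr ⟨a, b, c, hab, hac, hbc, rfl⟩
  rw [mem_filter, mem_powersetCard]
  have key : (∀ x ∈ ({a, b, c} : Finset (Fin n)), (∃ y ∈ ({a, b, c} : Finset (Fin n)),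
      y ≠ x ∧ (R x y ∨ R y x)) ∧ ∃ y ∈ ({a, b, c} : Finset (Fin n)), y ≠ x ∧ ¬ R x y) ↔
      (((R a b ∨ R b a) ∨ (R a c ∨ R c a)) ∧ (¬ R a b ∨ ¬ R a c)) ∧
      (((R b a ∨ R a b) ∨ (R b c ∨ R c b)) ∧ (¬ R b a ∨ ¬ R b c)) ∧
      (((R c a ∨ R a c) ∨ (R c b ∨ R b c)) ∧ (¬ R c a ∨ ¬ R c b)) := by
    simp only [mem_insert, mem_singleton, forall_eq_or_imp, forall_eq, exists_eq_or_imp,
      exists_eq_left, ne_eq, not_true_eq_false, false_and, false_or, hab, hac, hbc, hab.symm,
      hac.symm, hbc.symm, not_false_eq_true, true_and, or_false]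
  rw [key]
  exact ⟨fun h => h.2, fun h => ⟨⟨subset_univ _, h3⟩, h⟩⟩

theorem con_eq (R : Fin n → Fin n → Prop) :
    construction R = MP_f1799f_co.FonDerFlaass.construction R := by
  ext e
  unfold construction MP_f1799f_co.FonDerFlaass.construction MP_f1799f_co.FonDerFlaass.fdf
  rw [mem_filter, mem_sdiff, mem_filter]
  constructor
  · rintro ⟨h1, h2⟩
    refine ⟨h1, fun h3 => ?_⟩
    obtain ⟨-, x, hx, h4⟩ := h3
    obtain ⟨⟨y, hy, hyx, h5⟩, z, hz, hzx, h6⟩ := h2 x hx
    rcases h4 with h4 | h4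
    · have := h4 y hy hyx
      tauto
    · exact h6 (h4 z hz hzx)
  · rintro ⟨h1, h2⟩
    refine ⟨h1, fun x hx => ?_⟩
    constructor
    · by_contra hcon
      push Not at hcon
      exact h2 ⟨h1, x, hx, Or.inl fun y hy hyx => hcon y hy hyx⟩
    · by_contra hcon
      push Not at hcon
      exact h2 ⟨h1, x, hx, Or.inr fun y hy hyx => hcon y hy hyx⟩

/-- three pairwise non-adjacent members of a class -/
theorem three_of {s : ℕ} (hM : ManyIndependent s R) (x : Fin s → Fin n)
    (hx : Function.Injective x) : ∃ g : Fin 3 → Fin s, Function.Injective g ∧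
      ∀ a b, ¬ R (x (g a)) (x (g b)) := by
  obtain ⟨T, hT, hT3, hTR⟩ := hM (univ.image x) (by
    rw [card_image_of_injective _ hx, card_univ, Fintype.card_fin])
  have h1 : ∀ t : T, ∃ p : Fin s, x p = t.1 := by
    intro t
    obtain ⟨p, -, hp⟩ := mem_image.mp (hT t.2)
    exact ⟨p, hp⟩
  choose g hg using h1
  have e : Fin 3 ≃ T := (Finset.equivFinOfCardEq hT3).symm
  refine ⟨fun a => g (e a), ?_, ?_⟩
  · intro a b hab
    apply e.injective
    apply Subtype.ext
    rw [← hg (e a), ← hg (e b)]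
    exact congrArg x hab
  · intro a b
    rw [hg (e a), hg (e b)]
    exact hTR _ (e a).2 _ (e b).2

/-- a vertex adjacent to two vertices of a class which is apart sends arcs to them -/
theorem out_of {G : Finset (Finset (Fin n))} (hG : G = construction R) {i j j' : Fin n}
    (hij : i ≠ j) (hij' : i ≠ j') (hjj' : j ≠ j') (h1 : ¬ R j j') (h2 : ¬ R j' j)
    (h3 : ({i, j, j'} : Finset (Fin n)) ∉ G) (h4 : R i j ∨ R j i) (h5 : R i j' ∨ R j' i) :
    R i j ∧ R i j' := by
  by_contra hcon
  refine h3 ?_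
  rw [hG, mem_con hij hij' hjj']
  refine ⟨⟨Or.inl h4, ?_⟩, ⟨Or.inl h4.symm, Or.inr h1⟩, ⟨Or.inl h5.symm, Or.inr h2⟩⟩
  by_contra h
  push Not at h
  exact hcon h

/-- two vertices of a class which is apart are not both adjacent to the same two vertices -/
theorem not_two (hO : IsOriented R) {G : Finset (Finset (Fin n))} (hG : G = construction R)
    {i i' j j' : Fin n} (hii : i ≠ i') (hjj : j ≠ j') (h1 : i ≠ j) (h2 : i ≠ j') (h3 : i' ≠ j)
    (h4 : i' ≠ j') (a1 : ¬ R i i') (a2 : ¬ R i' i) (b1 : ¬ R j j') (b2 : ¬ R j' j)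
    (g1 : ({i, j, j'} : Finset (Fin n)) ∉ G) (g2 : ({i', j, j'} : Finset (Fin n)) ∉ G)
    (g3 : ({i, i', j} : Finset (Fin n)) ∉ G) (c1 : R i j ∨ R j i) (c2 : R i j' ∨ R j' i)
    (c3 : R i' j ∨ R j i') (c4 : R i' j' ∨ R j' i') : False := by
  have d1 := out_of hG h1 h2 hjj b1 b2 g1 c1 c2
  have d2 := out_of hG h3 h4 hjj b1 b2 g2 c3 c4
  refine g3 ?_
  rw [hG, mem_con hii h1 h3]
  exact ⟨⟨Or.inr (Or.inl d1.1), Or.inl a1⟩, ⟨Or.inr (Or.inl d2.1), Or.inl a2⟩,
    ⟨Or.inl (Or.inr d1.1), Or.inl (hO _ _ d1.1)⟩⟩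

theorem pick3 {p q : Fin 3 → Prop} (hp : ∀ a b, a ≠ b → p a ∨ p b) (hq : ∀ a b, a ≠ b → q a ∨ q b) :
    ∃ a, p a ∧ q a := by
  by_contra h
  have h' : ∀ a, p a → ¬ q a := fun a h1 h2 => h ⟨a, h1, h2⟩
  have key : ∀ a b : Fin 3, a ≠ b → ¬ (p a ∧ p b) := by
    rintro a b hab ⟨h1, h2⟩
    rcases hq a b hab with h3 | h3
    · exact h' a h1 h3
    · exact h' b h2 h3
  rcases hp 0 1 (by decide) with h0 | h1
  · rcases hp 1 2 (by decide) with h1 | h2
    · exact key 0 1 (by decide) ⟨h0, h1⟩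
    · exact key 0 2 (by decide) ⟨h0, h2⟩
  · rcases hp 0 2 (by decide) with h0 | h2
    · exact key 0 1 (by decide) ⟨h0, h1⟩
    · exact key 1 2 (by decide) ⟨h1, h2⟩

theorem noTriad {s : ℕ} (hO : IsOriented R) (hM : ManyIndependent s R)
    (f : Fin 3 × Fin s → Fin n) : ¬ IsTriad s (construction R) f := by
  rintro ⟨hf, h01, h02, h012⟩
  have inj : ∀ a, Function.Injective fun p => f (a, p) := fun a p q h => (Prod.mk.inj (hf h)).2
  obtain ⟨x, hx, hxR⟩ := three_of hM _ (inj 0)
  obtain ⟨y, hy, hyR⟩ := three_of hM _ (inj 1)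
  obtain ⟨z, hz, hzR⟩ := three_of hM _ (inj 2)
  have ne : ∀ {a b : Fin 3} {p q : Fin s}, (a, p) ≠ (b, q) → f (a, p) ≠ f (b, q) :=
    fun h h' => h (hf h')
  -- at most one vertex of the class 0 is adjacent to two fixed vertices of another class
  have key : ∀ (c : Fin 3) (w : Fin 3 → Fin s), c ≠ 0 → Function.Injective w →
      (∀ a b, ¬ R (f (c, w a)) (f (c, w b))) →
      Apart (construction R) (fun p => f (0, p)) (fun p => f (c, p)) →
      ∀ a a' : Fin 3, a ≠ a' →
      ((∃ b, ¬ (R (f (0, x a)) (f (c, w b)) ∨ R (f (c, w b)) (f (0, x a)))) ∨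
        ∃ b, ¬ (R (f (0, x a')) (f (c, w b)) ∨ R (f (c, w b)) (f (0, x a')))) := by
    intro c w hc hw hwR hA a a' haa
    by_contra hcon
    push Not at hcon
    obtain ⟨h1, h2⟩ := hcon
    have n1 : x a ≠ x a' := fun h => haa (hx h)
    have n2 : w 0 ≠ w 1 := fun h => absurd (hw h) (by decide)
    exact not_two hO rfl (ne fun h => n1 (Prod.mk.inj h).2) (ne fun h => n2 (Prod.mk.inj h).2)
      (ne fun h => hc (Prod.mk.inj h).1.symm) (ne fun h => hc (Prod.mk.inj h).1.symm)
      (ne fun h => hc (Prod.mk.inj h).1.symm) (ne fun h => hc (Prod.mk.inj h).1.symm)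
      (hxR a a') (hxR a' a) (hwR 0 1) (hwR 1 0) (hA.2 _ _ _ n2) (hA.2 _ _ _ n2) (hA.1 _ _ _ n1)
      (h1 0) (h1 1) (h2 0) (h2 1)
  have k1 := key 1 y (by decide) hy hyR h01
  have k2 := key 2 z (by decide) hz hzR h02
  obtain ⟨a, ⟨b, hb⟩, c, hc⟩ := pick3 k1 k2
  have h := h012 (x a) (y b) (z c)
  rw [mem_con (ne fun h => absurd (Prod.mk.inj h).1 (by decide))
    (ne fun h => absurd (Prod.mk.inj h).1 (by decide))
    (ne fun h => absurd (Prod.mk.inj h).1 (by decide))] at h
  rcases h.1.1 with h' | h'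
  · exact hb h'
  · exact hc h'

/-- `x → y` in the construction comes from arcs -/
theorem arc_of {G : Finset (Finset (Fin n))} (hG : G = construction R) {a a' b b' : Fin n}
    (haa : a ≠ a') (hbb : b ≠ b') (h1 : a ≠ b) (h2 : a' ≠ b) (h3 : a ≠ b') (h4 : a' ≠ b')
    (r1 : ¬ R a a') (r2 : ¬ R a' a) (r3 : ¬ R b b') (r4 : ¬ R b' b)
    (g1 : ({a, a', b} : Finset (Fin n)) ∈ G) (g2 : ({a, a', b'} : Finset (Fin n)) ∈ G)
    (g3 : ({a, b, b'} : Finset (Fin n)) ∉ G) : R a b := by
  have g1' := g1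
  have g2' := g2
  rw [hG, mem_con haa h1 h2] at g1'
  rw [hG, mem_con haa h3 h4] at g2'
  have q1 : R a b ∨ R b a := by
    rcases g1'.1.1 with h | h
    · rcases h with h | h
      · exact absurd h r1
      · exact absurd h r2
    · exact h
  have q2 : R a b' ∨ R b' a := by
    rcases g2'.1.1 with h | h
    · rcases h with h | h
      · exact absurd h r1
      · exact absurd h r2
    · exact h
  exact (out_of hG h1 h3 hbb r3 r4 g3 q1 q2).1

theorem noCycle {s : ℕ} (hO : IsOriented R) (hC : NoInducedC4 R) (hM : ManyIndependent s R)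
    (f : Fin 4 × Fin s → Fin n) : ¬ IsCycle s (construction R) f := by
  rintro ⟨hf, h01, h12, h23, h30, h02, h13, -⟩
  have inj : ∀ a, Function.Injective fun p => f (a, p) := fun a p q h => (Prod.mk.inj (hf h)).2
  have hsel : ∀ a : Fin 4, ∃ g : Fin 3 → Fin s, Function.Injective g ∧
      ∀ p q, ¬ R (f (a, g p)) (f (a, g q)) := fun a => three_of hM _ (inj a)
  choose g hg hgR using hsel
  have ne : ∀ {a b : Fin 4} {p q : Fin s}, (a, p) ≠ (b, q) → f (a, p) ≠ f (b, q) :=
    fun h h' => h (hf h')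
  have n1 : ∀ a : Fin 4, ∀ p q : Fin 3, p ≠ q → g a p ≠ g a q := fun a p q h h' => h (hg a h')
  have arc : ∀ a b : Fin 4, a ≠ b → Arrow (construction R) (fun p => f (a, p)) (fun p => f (b, p)) →
      ∀ p q, R (f (a, g a p)) (f (b, g b q)) := by
    intro a b hab hA p q
    obtain ⟨p', hp⟩ : ∃ p' : Fin 3, p ≠ p' := ⟨p + 1, by fin_cases p <;> decide⟩
    obtain ⟨q', hq⟩ : ∃ q' : Fin 3, q ≠ q' := ⟨q + 1, by fin_cases q <;> decide⟩
    have m1 := n1 a p p' hp
    have m2 := n1 b q q' hq
    exact arc_of rfl (ne fun h => m1 (Prod.mk.inj h).2) (ne fun h => m2 (Prod.mk.inj h).2)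
      (ne fun h => hab (Prod.mk.inj h).1) (ne fun h => hab (Prod.mk.inj h).1)
      (ne fun h => hab (Prod.mk.inj h).1) (ne fun h => hab (Prod.mk.inj h).1)
      (hgR a p p') (hgR a p' p) (hgR b q q') (hgR b q' q) (hA.1 _ _ _ m1) (hA.1 _ _ _ m1)
      (hA.2 _ _ _ m2)
  have far : ∀ a b : Fin 4, a ≠ b → Apart (construction R) (fun p => f (a, p)) (fun p => f (b, p)) →
      ∃ p q, ¬ (R (f (a, g a p)) (f (b, g b q)) ∨ R (f (b, g b q)) (f (a, g a p))) := by
    intro a b hab hA
    by_contra hcon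
    push Not at hcon
    have m1 := n1 a 0 1 (by decide)
    have m2 := n1 b 0 1 (by decide)
    exact not_two hO rfl (ne fun h => m1 (Prod.mk.inj h).2) (ne fun h => m2 (Prod.mk.inj h).2)
      (ne fun h => hab (Prod.mk.inj h).1) (ne fun h => hab (Prod.mk.inj h).1)
      (ne fun h => hab (Prod.mk.inj h).1) (ne fun h => hab (Prod.mk.inj h).1)
      (hgR a 0 1) (hgR a 1 0) (hgR b 0 1) (hgR b 1 0) (hA.2 _ _ _ m2) (hA.2 _ _ _ m2)
      (hA.1 _ _ _ m1) (hcon 0 0) (hcon 0 1) (hcon 1 0) (hcon 1 1)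
  obtain ⟨p0, p2, hp⟩ := far 0 2 (by decide) h02
  obtain ⟨p1, p3, hq⟩ := far 1 3 (by decide) h13
  push Not at hp hq
  exact hC ⟨_, _, _, _, arc 0 1 (by decide) h01 p0 p1, arc 1 2 (by decide) h12 p1 p2,
    arc 2 3 (by decide) h23 p2 p3, arc 3 0 (by decide) h30 p3 p0, hp.1, hp.2, hq.1, hq.2⟩

end

/-- among seven vertices, three are pairwise non-adjacent in Turán's oriented graph -/
theorem turan_many (n : ℕ) : ManyIndependent 7 (MP_f1799f_co.FonDerFlaass.turanR n) := by
  intro S hS
  obtain ⟨i, -, hi⟩ := Finset.exists_lt_card_fiber_of_mul_lt_card_of_maps_to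
    (s := S) (t := range 3) (f := fun x : Fin n => (x : ℕ) % 3) (n := 2)
    (fun x _ => by simpa using Nat.mod_lt _ (by norm_num)) (by rw [hS, card_range]; norm_num)
  obtain ⟨T, hT, hT3⟩ := exists_subset_card_eq (s := S.filter fun x : Fin n => (x : ℕ) % 3 = i)
    (n := 3) (by omega)
  refine ⟨T, fun x hx => (mem_filter.mp (hT hx)).1, hT3, fun x hx y hy h => ?_⟩
  have h1 := (mem_filter.mp (hT hx)).2
  have h2 := (mem_filter.mp (hT hy)).2
  unfold MP_f1799f_co.FonDerFlaass.turanR at h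
  omega

/-- **Turán's `(3,4)`-conjecture for 3-graphs whose blow-ups look like Fon-der-Flaass 3-graphs.**
(1) For all `s` and `ε > 0` there are `δ > 0` and `N` such that every `K_4^3`-free 3-graph `G` on
`n ≥ N` vertices has at most `(5/9 + ε) C(n, 3)` edges if it contains at most `δ n^{3s}` configurations
of the first kind and at most `δ n^{4s}` of the second kind, or if there are at most `δ n^{3s+1}` pairs
of a vertex and an induced copy of `K_{s,s} ∪ s K_1` in its link graph. (2) The 3-graph of the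
Fon-der-Flaass construction contains no configuration of either kind if every `s` vertices of the
oriented graph contain three pairwise non-adjacent ones. (3) For `s = 7` the bound is attained by
such 3-graphs. -/
theorem result :
    (∀ (s : ℕ) (ε : ℝ), 0 < ε → ∃ δ : ℝ, 0 < δ ∧ ∃ N : ℕ, ∀ n : ℕ, N ≤ n →
      ∀ G : Finset (Finset (Fin n)), (∀ e ∈ G, e.card = 3) → K43Free G →
        (((triads s G : ℝ) ≤ δ * (n : ℝ) ^ (3 * s) ∧ (cycles s G : ℝ) ≤ δ * (n : ℝ) ^ (4 * s)) ∨
          (copies (bipartitePoints s) G : ℝ) ≤ δ * (n : ℝ) ^ (3 * s + 1)) →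
        (G.card : ℝ) ≤ (5 / 9 + ε) * (n.choose 3 : ℝ)) ∧
    (∀ (n s : ℕ) (R : Fin n → Fin n → Prop), IsOriented R → NoInducedC4 R → ManyIndependent s R →
      K43Free (construction R) ∧ triads s (construction R) = 0 ∧ cycles s (construction R) = 0) ∧
    (∀ ε : ℝ, 0 < ε → ∃ N : ℕ, ∀ n : ℕ, N ≤ n → ∃ R : Fin n → Fin n → Prop,
      IsOriented R ∧ NoInducedC4 R ∧ ManyIndependent 7 R ∧
        (5 / 9 - ε) * (n.choose 3 : ℝ) ≤ ((construction R).card : ℝ)) := by
  refine ⟨part1, fun n s R hO hC hM => ⟨?_, ?_, ?_⟩, fun ε hε => ?_⟩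
  · rw [con_eq]
    intro S hS
    exact MP_f1799f_co.FonDerFlaass.k43free R hO hC S hS
  · unfold triads
    rw [card_eq_zero, filter_eq_empty_iff]
    exact fun f _ => noTriad hO hM f
  · unfold cycles
    rw [card_eq_zero, filter_eq_empty_iff]
    exact fun f _ => noCycle hO hC hM f
  · obtain ⟨N, hN⟩ := exists_nat_gt (80 / ε)
    refine ⟨max N 8, fun n hn => ⟨MP_f1799f_co.FonDerFlaass.turanR n,
      MP_f1799f_co.FonDerFlaass.turan_oriented n, MP_f1799f_co.FonDerFlaass.turan_noC4 n,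
      turan_many n, ?_⟩⟩
    have hn1 : (N : ℝ) ≤ n := by exact_mod_cast (le_max_left N 8).trans hn
    have hn8 : (8 : ℝ) ≤ n := by exact_mod_cast (le_max_right N 8).trans hn
    have he : 80 ≤ ε * n := by
      have : 80 / ε < n := lt_of_lt_of_le hN hn1
      rw [div_lt_iff₀ hε] at this
      linarith
    have h0 := MP_f1799f_co.FonDerFlaass.turan_card n
    rw [con_eq, MP_f1799f_co.FonDerFlaass.card_construction,
      MP_f1799f_co.FonDerFlaass.choose_three]
    have h1 : (n : ℝ) ^ 3 / 6 - (n : ℝ) ^ 2 / 2 ≥ (n : ℝ) ^ 3 / 12 := by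
      nlinarith [sq_nonneg (n : ℝ)]
    have h2 : 80 * ((n : ℝ) ^ 2 / 12) ≤ ε * n * ((n : ℝ) ^ 2 / 12) :=
      mul_le_mul_of_nonneg_right he (by positivity)
    have h3 : 0 ≤ ε * ((n : ℝ) / 3) := by positivity
    have h4 : ε * ((n : ℝ) ^ 3 / 12) ≤ ε * ((n : ℝ) ^ 3 / 6 - (n : ℝ) ^ 2 / 2) :=
      mul_le_mul_of_nonneg_left h1 hε.le
    nlinarith

end Pool.Agent.Results.MP_466853_co.FonDerFlaassBlowUps
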